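import Pool.Agent.H45.SE.TarT
import Pool.Agent.H34.SE.BC

/-! # SE, module TBa: the image of a condition under an injective map -/

set_option linter.unusedVariables false

open Ordinal Order Set
open scoped ZFSet

namespace SE

open SF H34SE

namespace TBaaux

theorem mem_im {π s j : V} : j ∈ im π s ↔ ∃ i ∈ s, app π i = j := by
  unfold im
  exact mem_imS

theorem mem_mv {π q z : V} (hq : FF q) :
    z ∈ mv π q ↔ ∃ i ∈ dm q, z = ZFSet.pair (app π i) (app q i) := by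
  unfold mv
  rw [mem_imS]
  constructor
  · rintro ⟨w, hw, rfl⟩
    obtain ⟨i, hi, rfl⟩ := bc_of_mem hq hw
    exact ⟨i, hi, by rw [fst_pair, snd_pair]⟩
  · rintro ⟨i, hi, rfl⟩
    exact ⟨_, bc_pair hq.2.1 hi, by rw [fst_pair, snd_pair]⟩

theorem ff_mv {π ρ q : V} (hπ : Ijo π ρ) (hq : FF q) (hd : dm q ⊆ ρ) : FF (mv π q) := by
  refine ⟨?_, ?_, ?_⟩
  · refine (hq.1.image fun z => ZFSet.pair (app π (fst z)) (snd z)).subset ?_
    intro z hz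
    have hz' : z ∈ mv π q := hz
    unfold mv at hz'
    obtain ⟨w, hw, h⟩ := mem_imS.1 hz'
    exact ⟨w, hw, h⟩
  · intro x y z hy hz
    obtain ⟨i, hi, h1⟩ := (mem_mv hq).1 hy
    obtain ⟨j, hj, h2⟩ := (mem_mv hq).1 hz
    obtain ⟨h3, h4⟩ := ZFSet.pair_inj.1 h1
    obtain ⟨h5, h6⟩ := ZFSet.pair_inj.1 h2
    have : i = j := hπ i (hd hi) j (hd hj) (h3.symm.trans h5)
    subst this
    rw [h4, h6]
  · intro z hz
    obtain ⟨i, hi, rfl⟩ := (mem_mv hq).1 hz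
    exact ⟨_, _, rfl⟩

theorem dm_mv {π q : V} (hq : FF q) : dm (mv π q) = im π (dm q) := by
  ext j
  rw [mem_dm, mem_im]
  constructor
  · rintro ⟨y, hy⟩
    obtain ⟨i, hi, h⟩ := (mem_mv hq).1 hy
    exact ⟨i, hi, (ZFSet.pair_inj.1 h).1.symm⟩
  · rintro ⟨i, hi, rfl⟩
    exact ⟨app q i, (mem_mv hq).2 ⟨i, hi, rfl⟩⟩

theorem app_mem_im {π ρ s : V} (hπ : Ijo π ρ) (hs : s ⊆ ρ) {i : V} (hi : i ∈ ρ) :
    app π i ∈ im π s ↔ i ∈ s := by
  rw [mem_im]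
  constructor
  · rintro ⟨j, hj, h⟩
    have := hπ j (hs hj) i hi h
    rwa [← this]
  · intro h
    exact ⟨i, h, rfl⟩

theorem app_mem_dm {π ρ q : V} (hπ : Ijo π ρ) (hq : FF q) (hd : dm q ⊆ ρ) {i : V} (hi : i ∈ ρ) :
    app π i ∈ dm (mv π q) ↔ i ∈ dm q := by
  rw [dm_mv hq]
  exact app_mem_im hπ hd hi

theorem app_mv {π ρ q : V} (hπ : Ijo π ρ) (hq : FF q) (hd : dm q ⊆ ρ) {i : V} (hi : i ∈ ρ) :
    app (mv π q) (app π i) = app q i := by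
  by_cases h : i ∈ dm q
  · exact app_eq (ff_mv hπ hq hd).2.1 ((mem_mv hq).2 ⟨i, h, rfl⟩)
  · rw [bc_app_empty _ _ h, bc_app_empty _ _ fun h' => h ((app_mem_dm hπ hq hd hi).1 h')]

theorem im_sub {π ρ s s' : V} (hπ : Ijo π ρ) (hs : s ⊆ ρ) (hs' : s' ⊆ ρ) :
    im π s' ⊆ im π s ↔ s' ⊆ s := by
  constructor
  · intro h i hi
    exact (app_mem_im hπ hs (hs' hi)).1 (h (mem_im.2 ⟨i, hi, rfl⟩))
  · intro h j hj
    obtain ⟨i, hi, rfl⟩ := mem_im.1 hj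
    exact mem_im.2 ⟨i, h hi, rfl⟩

theorem le_mv {π ρ q q' : V} (hπ : Ijo π ρ) (hq : FF q) (hd : dm q ⊆ ρ) (hq' : FF q')
    (hd' : dm q' ⊆ ρ) : Le (mv π q') (mv π q) ↔ Le q' q := by
  constructor
  · intro h i hi
    have hiρ : i ∈ ρ := hd hi
    obtain ⟨h1, h2⟩ := h (app π i) ((app_mem_dm hπ hq hd hiρ).2 hi)
    rw [app_mv hπ hq' hd' hiρ, app_mv hπ hq hd hiρ] at h2
    exact ⟨(app_mem_dm hπ hq' hd' hiρ).1 h1, h2⟩
  · intro h j hj
    rw [dm_mv hq] at hj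
    obtain ⟨i, hi, rfl⟩ := mem_im.1 hj
    have hiρ : i ∈ ρ := hd hi
    obtain ⟨h1, h2⟩ := h i hi
    refine ⟨(app_mem_dm hπ hq' hd' hiρ).2 h1, ?_⟩
    rw [app_mv hπ hq' hd' hiρ, app_mv hπ hq hd hiρ]
    exact h2

theorem mv_inj {π ρ q q' : V} (hπ : Ijo π ρ) (hq : FF q) (hd : dm q ⊆ ρ) (hq' : FF q')
    (hd' : dm q' ⊆ ρ) (h : mv π q' = mv π q) : q' = q := by
  have hdm : dm q' = dm q := by
    ext i
    constructor
    · intro hi
      have h1 := (app_mem_dm hπ hq' hd' (hd' hi)).2 hi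
      rw [h] at h1
      exact (app_mem_dm hπ hq hd (hd' hi)).1 h1
    · intro hi
      have h1 := (app_mem_dm hπ hq hd (hd hi)).2 hi
      rw [← h] at h1
      exact (app_mem_dm hπ hq' hd' (hd hi)).1 h1
  refine bc_ext hq' hq hdm fun i hi => ?_
  rw [← app_mv hπ hq' hd' (hd' hi), ← app_mv hπ hq hd (hd' hi), h]

theorem rst_mv {π ρ q s : V} (hπ : Ijo π ρ) (hq : FF q) (hd : dm q ⊆ ρ) (hs : s ⊆ ρ) :
    rst (im π s) (mv π q) = mv π (rst s q) := by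
  ext z
  rw [bc_mem_rst, mem_mv hq, mem_mv (bc_rst_ff hq)]
  constructor
  · rintro ⟨⟨i, hi, rfl⟩, h⟩
    rw [fst_pair] at h
    have his := (app_mem_im hπ hs (hd hi)).1 h
    exact ⟨i, bc_dm_rst.2 ⟨hi, his⟩, by rw [bc_rst_app hq his]⟩
  · rintro ⟨i, hi, rfl⟩
    obtain ⟨h1, h2⟩ := bc_dm_rst.1 hi
    refine ⟨⟨i, h1, by rw [bc_rst_app hq h2]⟩, ?_⟩
    rw [fst_pair]
    exact mem_im.2 ⟨i, h2, rfl⟩

theorem im_congr {π π' s : V} (h : ∀ i ∈ s, app π i = app π' i) : im π s = im π' s := by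
  ext j
  rw [mem_im, mem_im]
  constructor
  · rintro ⟨i, hi, rfl⟩
    exact ⟨i, hi, (h i hi).symm⟩
  · rintro ⟨i, hi, rfl⟩
    exact ⟨i, hi, h i hi⟩

theorem mv_congr {π π' s : V} (h : ∀ i ∈ s, app π i = app π' i) {q : V} (hq : FF q)
    (hd : dm q ⊆ s) : mv π q = mv π' q := by
  ext z
  rw [mem_mv hq, mem_mv hq]
  constructor
  · rintro ⟨i, hi, rfl⟩
    exact ⟨i, hi, by rw [h i (hd hi)]⟩
  · rintro ⟨i, hi, rfl⟩
    exact ⟨i, hi, by rw [h i (hd hi)]⟩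

theorem im_idn {π s : V} (h : Idn π s) : im π s = s := by
  ext j
  rw [mem_im]
  constructor
  · rintro ⟨i, hi, rfl⟩
    rw [h i hi]
    exact hi
  · intro hj
    exact ⟨j, hj, h j hj⟩

theorem mv_idn {π s : V} (h : Idn π s) {q : V} (hq : FF q) (hd : dm q ⊆ s) : mv π q = q := by
  ext z
  rw [mem_mv hq]
  constructor
  · rintro ⟨i, hi, rfl⟩
    rw [h i (hd hi)]
    exact bc_pair hq.2.1 hi
  · intro hz
    obtain ⟨i, hi, rfl⟩ := bc_of_mem hq hz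
    exact ⟨i, hi, by rw [h i (hd hi)]⟩

theorem app_idm {s i : V} (hi : i ∈ s) : app (idm s) i = i := by
  unfold idm
  exact app_resS hi

end TBaaux

open TBaaux

theorem t_tba : T_TBa := by
  refine ⟨?_, fun π s j => mem_im, ?_, ?_, ?_, ?_⟩
  · intro π ρ hπ q hq hd
    refine ⟨ff_mv hπ hq hd, dm_mv hq, fun i hi => ⟨app_mem_dm hπ hq hd hi, app_mv hπ hq hd hi⟩,
      fun q' hq' hd' => ⟨le_mv hπ hq hd hq' hd', mv_inj hπ hq hd hq' hd'⟩,
      fun s hs => rst_mv hπ hq hd hs⟩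
  · intro π ρ hπ s hs
    refine ⟨fun i hi j hj => hπ i (hs hi) j (hs hj), fun i hi => app_mem_im hπ hs hi,
      fun s' hs' => im_sub hπ hs hs'⟩
  · intro π π' s h
    exact ⟨im_congr h, fun q hq hd => mv_congr h hq hd⟩
  · intro π s h
    exact ⟨im_idn h, fun q hq hd => mv_idn h hq hd⟩
  · intro s
    refine ⟨fun i hi => app_idm hi, fun i hi j hj h => ?_, ?_⟩
    · rwa [app_idm hi, app_idm hj] at h
    · unfold idm
      exact isFunc_resS s s _ fun x hx => hx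

end SE
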