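import Pool.Agent.H38.SE.TarA

/-! # AF: finite sequences -/

set_option autoImplicit false

open Ordinal Order Set
open scoped ZFSet

namespace SE

open SF

namespace AFaux

theorem mem_nS' {x : V} {n : ℕ} : x ∈ nS n ↔ ∃ m < n, x = nS m := by
  induction n with
  | zero =>
    rw [nS_zero]
    constructor
    · intro h; exact absurd h (ZFSet.notMem_empty _)
    · rintro ⟨m, hm, -⟩; omega
  | succ n ih =>
    rw [nS_succ, ZFSet.mem_insert_iff, ih]
    constructor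
    · rintro (rfl | ⟨m, hm, rfl⟩)
      · exact ⟨n, by omega, rfl⟩
      · exact ⟨m, by omega, rfl⟩
    · rintro ⟨m, hm, rfl⟩
      rcases Nat.lt_or_ge m n with h | h
      · exact Or.inr ⟨m, h, rfl⟩
      · have : m = n := by omega
        rw [this]; exact Or.inl rfl

theorem mem_iff {n : ℕ} {b : V} (hb : Sq n b) (z : V) :
    z ∈ b ↔ ∃ l < n, z = ZFSet.pair (nS l) (app b (nS l)) := by
  constructor
  · intro hz
    obtain ⟨x, hx, y, hy, rfl⟩ := ZFSet.mem_prod.1 (hb.1 hz)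
    obtain ⟨l, hl, rfl⟩ := mem_nS'.1 hx
    exact ⟨l, hl, by rw [((pair_mem_iff_app hb).1 hz).2]⟩
  · rintro ⟨l, hl, rfl⟩
    exact pair_app_mem hb (mem_nS'.2 ⟨l, hl, rfl⟩)

theorem mk {n : ℕ} {c : V} (F : ℕ → V) (hF : ∀ l < n, F l ∈ hf)
    (hc : ∀ z, z ∈ c ↔ ∃ l < n, z = ZFSet.pair (nS l) (F l)) :
    Sq n c ∧ ∀ l < n, app c (nS l) = F l := by
  have h1 : Sq n c := by
    constructor
    · intro z hz
      obtain ⟨l, hl, rfl⟩ := (hc z).1 hz
      exact ZFSet.pair_mem_prod.2 ⟨mem_nS'.2 ⟨l, hl, rfl⟩, hF l hl⟩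
    · intro z hz
      obtain ⟨l, hl, rfl⟩ := mem_nS'.1 hz
      refine ⟨F l, (hc _).2 ⟨l, hl, rfl⟩, fun y hy => ?_⟩
      obtain ⟨k, hk, h2⟩ := (hc _).1 hy
      obtain ⟨h3, h4⟩ := ZFSet.pair_inj.1 h2
      rw [nS_inj] at h3
      rw [h4, h3]
  refine ⟨h1, fun l hl => ?_⟩
  exact app_eq (svl_of_isFunc h1) ((hc _).2 ⟨l, hl, rfl⟩)

theorem app_hf {n : ℕ} {b : V} (hb : Sq n b) {l : ℕ} (hl : l < n) : app b (nS l) ∈ hf :=
  app_mem hb (mem_nS'.2 ⟨l, hl, rfl⟩)

theorem mem_rs {n m : ℕ} {b : V} (hb : Sq n b) (hm : m ≤ n) (z : V) :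
    z ∈ rs b (nS m) ↔ ∃ l < m, z = ZFSet.pair (nS l) (app b (nS l)) := by
  unfold rs
  rw [ZFSet.mem_sep, mem_iff hb]
  constructor
  · rintro ⟨⟨l, hl, rfl⟩, h⟩
    rw [fst_pair] at h
    obtain ⟨k, hk, h2⟩ := mem_nS'.1 h
    rw [nS_inj] at h2
    exact ⟨l, by omega, rfl⟩
  · rintro ⟨l, hl, rfl⟩
    refine ⟨⟨l, by omega, rfl⟩, ?_⟩
    rw [fst_pair]
    exact mem_nS'.2 ⟨l, hl, rfl⟩

theorem sub_iff {n m : ℕ} {b c : V} (hb : Sq n b) (hc : Sq m c) :
    b ⊆ c ↔ n ≤ m ∧ ∀ l < n, app b (nS l) = app c (nS l) := by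
  constructor
  · intro h
    have h1 : ∀ l < n, l < m ∧ app b (nS l) = app c (nS l) := by
      intro l hl
      have h2 := h ((mem_iff hb _).2 ⟨l, hl, rfl⟩)
      obtain ⟨k, hk, h3⟩ := (mem_iff hc _).1 h2
      obtain ⟨h4, h5⟩ := ZFSet.pair_inj.1 h3
      rw [nS_inj] at h4
      subst h4
      exact ⟨hk, h5⟩
    refine ⟨?_, fun l hl => (h1 l hl).2⟩
    by_contra h6
    push Not at h6
    exact absurd (h1 m h6).1 (lt_irrefl _)
  · rintro ⟨hnm, h⟩ z hz
    obtain ⟨l, hl, rfl⟩ := (mem_iff hb _).1 hz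
    rw [h l hl]
    exact (mem_iff hc _).2 ⟨l, by omega, rfl⟩

theorem fin {n : ℕ} {b : V} (hb : Sq n b) : (b : Set V).Finite := by
  have h : (b : Set V) ⊆ (fun l : ℕ => ZFSet.pair (nS l) (app b (nS l))) '' Set.Iio n := by
    intro z hz
    obtain ⟨l, hl, rfl⟩ := (mem_iff hb z).1 hz
    exact ⟨l, hl, rfl⟩
  exact ((Set.finite_Iio n).image _).subset h

end AFaux

open AFaux

theorem pf_AF (hAA : T_AA) (hAC : T_AC) : T_AF := by
  obtain ⟨a1, a2, a3, a4, a5, a6, a7, a8, a9⟩ := hAA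
  have hmem : ∀ n b, Sq n b → b ∈ hf := by
    intro n b hb
    refine a5 b (fun z hz => ?_) (fin hb)
    obtain ⟨l, hl, rfl⟩ := (mem_iff hb z).1 hz
    exact a4 _ (a2 l) _ (app_hf hb hl)
  have hsq : ∀ b : V, b ∈ sq ↔ ∃ n : ℕ, Sq n b := by
    intro b
    unfold sq
    rw [ZFSet.mem_sep]
    constructor
    · exact fun h => h.2
    · rintro ⟨n, hn⟩
      exact ⟨hmem n b hn, n, hn⟩
  have h0 : Sq 0 (∅ : V) := by
    unfold Sq
    rw [nS_zero]
    constructor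
    · intro z hz; exact absurd hz (ZFSet.notMem_empty _)
    · intro z hz; exact absurd hz (ZFSet.notMem_empty _)
  have htm : Tm ZFm (fun _ _ => sq) := by
    refine (Tm.sep (R := fun _ v => ∃ n ∈ om, ZFSet.IsFunc n hf (v 0)) (f := fun _ _ => hf)
      ?_ a8).congr fun M k v hv => ?_
    · exact Dfb.bex (R := fun _ v => ZFSet.IsFunc (v 0) hf (v 1)) ktr_zfm Tm.om
        (Dfb.isFunc (Tm.var 0) a8 (Tm.var 1))
    · ext z
      unfold sq
      rw [ZFSet.mem_sep, ZFSet.mem_sep]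
      refine and_congr_right fun _ => ?_
      constructor
      · rintro ⟨n, hn, h⟩
        obtain ⟨m, rfl⟩ := mem_om.1 hn
        exact ⟨m, h⟩
      · rintro ⟨m, h⟩
        exact ⟨nS m, mem_om.2 ⟨m, rfl⟩, h⟩
  have hrs : ∀ n b, Sq n b → ∀ m ≤ n, Sq m (rs b (nS m)) ∧ rs b (nS m) ⊆ b ∧
      ∀ l < m, app (rs b (nS m)) (nS l) = app b (nS l) := by
    intro n b hb m hm
    obtain ⟨h1, h2⟩ := mk (n := m) (c := rs b (nS m)) (fun l => app b (nS l))
      (fun l hl => app_hf hb (by omega)) (mem_rs hb hm)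
    exact ⟨h1, fun z hz => (ZFSet.mem_sep.1 hz).1, h2⟩
  refine ⟨hsq, h0, htm, ?_, ?_, ?_, ?_, ?_, ?_⟩
  · intro M k
    have hM : M sq := htm.1 M k (fun _ => om) fun _ => Tm.om.1 M k (fun _ => ∅) fun _ => by
      exact Tm.empty.1 M k (fun _ => (om : V)) fun _ => k.inf
    exact (hAC M k).2.1 sq hf hM (a9 M k) fun z hz => (ZFSet.mem_sep.1 hz).1
  · intro n b hb
    refine ⟨hmem n b hb, svl_of_isFunc hb, ?_, fun m hm => app_hf hb hm, ?_, hrs n b hb⟩
    · ext z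
      rw [mem_dm, mem_nS']
      constructor
      · rintro ⟨y, hy⟩
        obtain ⟨l, hl, h⟩ := (mem_iff hb _).1 hy
        exact ⟨l, hl, (ZFSet.pair_inj.1 h).1⟩
      · rintro ⟨l, hl, rfl⟩
        exact ⟨_, (mem_iff hb _).2 ⟨l, hl, rfl⟩⟩
    · ext z
      rw [mem_rs hb le_rfl, mem_iff hb]
  · intro n b a hb ha
    have hc : ∀ z, z ∈ (insert (ZFSet.pair (nS n) a) b : V) ↔ ∃ l < n + 1,
        z = ZFSet.pair (nS l) (if l < n then app b (nS l) else a) := by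
      intro z
      rw [ZFSet.mem_insert_iff, mem_iff hb]
      constructor
      · rintro (rfl | ⟨l, hl, rfl⟩)
        · exact ⟨n, by omega, by rw [if_neg (lt_irrefl _)]⟩
        · exact ⟨l, by omega, by rw [if_pos hl]⟩
      · rintro ⟨l, hl, rfl⟩
        by_cases h : l < n
        · exact Or.inr ⟨l, h, by rw [if_pos h]⟩
        · have : l = n := by omega
          subst this
          left
          rw [if_neg h]
    obtain ⟨h1, h2⟩ := mk (n := n + 1) (fun l => if l < n then app b (nS l) else a)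
      (fun l hl => by
        by_cases h : l < n
        · rw [if_pos h]; exact app_hf hb h
        · rw [if_neg h]; exact ha) hc
    refine ⟨h1, ?_, fun l hl => ?_⟩
    · rw [h2 n (by omega), if_neg (lt_irrefl _)]
    · rw [h2 l (by omega), if_pos hl]
  · intro n b m c hb hc
    exact sub_iff hb hc
  · intro n b m c hb hc hbc
    obtain ⟨h1, h2⟩ := (sub_iff hb hc).1 hbc
    ext z
    rw [mem_iff hb, mem_rs hc h1]
    constructor
    · rintro ⟨l, hl, rfl⟩
      exact ⟨l, hl, by rw [h2 l hl]⟩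
    · rintro ⟨l, hl, rfl⟩
      exact ⟨l, hl, by rw [h2 l hl]⟩
  · intro n b m c hb hc h
    rcases h with h | h
    · have h1 := ((sub_iff hb hc).1 h).1
      have h2 : b ∪ c = c := by
        ext z
        rw [ZFSet.mem_union]
        exact ⟨fun h3 => h3.elim (fun h4 => h h4) id, Or.inr⟩
      rw [h2, max_eq_right h1]
      exact ⟨hc, Or.inr rfl⟩
    · have h1 := ((sub_iff hc hb).1 h).1
      have h2 : b ∪ c = b := by
        ext z
        rw [ZFSet.mem_union]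
        exact ⟨fun h3 => h3.elim id fun h4 => h h4, Or.inl⟩
      rw [h2, max_eq_left h1]
      exact ⟨hb, Or.inl rfl⟩

end SE
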